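import Pool.Agent.Helper41.LD6.Defs

/-!
# Project LD6, block TTC: the times at `x` and the times of the stage
-/

set_option autoImplicit false

namespace Pool.Agent.Helper11.LD6

open Set
open Pool.Agent.Helper41.LD5 (nuP fp)
open Pool.Agent.Helper41.LD6

private lemma vmono {A₀ x y : ℝ} {n : ℕ} (hA : 0 < A₀) (hx : 0 < x) (hxy : x ≤ y) : Vf A₀ n x ≤ Vf A₀ n y := by
  unfold Vf
  gcongr

private lemma vnn {A₀ x : ℝ} {n : ℕ} (hA : 0 < A₀) (hx : 0 < x) : 0 ≤ Vf A₀ n x := by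
  unfold Vf
  positivity

private lemma vstep {A₀ x : ℝ} (hA : 0 < A₀) (hx : 0 < x) (n m : ℕ) : Vf A₀ n x * x ^ m ≤ Vf A₀ (n + m) x := by
  rcases Nat.eq_zero_or_pos n with h | h
  · subst h
    have h1 : Vf A₀ 0 x = 0 := by
      unfold Vf
      simp
    rw [h1, zero_mul]
    exact vnn hA hx
  · unfold Vf
    have h1 : n + m - 1 = (n - 1) + m := by omega
    rw [h1, pow_add]
    have h2 : (n : ℝ) ≤ ((n + m : ℕ) : ℝ) := by exact_mod_cast Nat.le_add_right n m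
    calc A₀ * (n : ℝ) * x ^ (n - 1) * x ^ m = A₀ * (n : ℝ) * (x ^ (n - 1) * x ^ m) := by ring
      _ ≤ A₀ * ((n + m : ℕ) : ℝ) * (x ^ (n - 1) * x ^ m) := by gcongr

private lemma vnear {A₀ a x δ : ℝ} {n : ℕ} (hA : 0 < A₀) (ha : 1 ≤ a) (hax : a ≤ x) (hxa : x ≤ a + δ)
    (hδ : (n : ℝ) * δ ≤ 1 / 2) : Vf A₀ n x ≤ 2 * Vf A₀ n a := by
  have hδ0 : 0 ≤ δ := by linarith
  have h1 : x ≤ a * (1 + δ) := by nlinarith
  have h2 : (1 + δ) ^ (n - 1) ≤ 2 := by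
    have h3 : (1 + δ) ^ (n - 1) ≤ Real.exp (δ * ((n - 1 : ℕ) : ℝ)) := by
      rw [mul_comm, Real.exp_nat_mul]
      exact pow_le_pow_left₀ (by linarith) (by linarith [Real.add_one_le_exp δ]) _
    have h4 : δ * ((n - 1 : ℕ) : ℝ) ≤ 1 / 2 := by
      have h5 : ((n - 1 : ℕ) : ℝ) ≤ n := by exact_mod_cast Nat.sub_le n 1
      nlinarith
    have h6 : Real.exp (1 / 2 : ℝ) ≤ 2 := by
      have h7 : Real.exp (1 / 2 : ℝ) ^ 2 = Real.exp 1 := by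
        rw [← Real.exp_nat_mul]
        norm_num
      have h8 := Real.exp_one_lt_d9
      have h9 := Real.exp_pos (1 / 2 : ℝ)
      nlinarith
    exact h3.trans ((Real.exp_le_exp.2 h4).trans h6)
  unfold Vf
  calc A₀ * (n : ℝ) * x ^ (n - 1) ≤ A₀ * (n : ℝ) * (a * (1 + δ)) ^ (n - 1) := by
        have hx0 : 0 ≤ x := by linarith
        gcongr
    _ = A₀ * (n : ℝ) * a ^ (n - 1) * (1 + δ) ^ (n - 1) := by rw [mul_pow]; ring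
    _ ≤ A₀ * (n : ℝ) * a ^ (n - 1) * 2 := by
        have h0 : 0 ≤ A₀ * (n : ℝ) * a ^ (n - 1) := by positivity
        exact mul_le_mul_of_nonneg_left h2 h0
    _ = 2 * (A₀ * (n : ℝ) * a ^ (n - 1)) := by ring

private lemma vfp {A₀ x : ℝ} {n : ℕ} (hx : 0 < x) : Vf A₀ n x = fp A₀ 1 n x := by
  unfold Vf fp
  rcases Nat.eq_zero_or_pos n with h | h
  · subst h
    simp
  · have h1 : (n : ℝ) / ((1 : ℕ) : ℝ) = n := by simp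
    rw [h1]
    congr 1
    rw [← Real.rpow_natCast]
    congr 1
    rw [Nat.cast_sub h]
    simp

private lemma tspec {A₀ Θ a ℓ : ℝ} (hA : 0 < A₀) (h1 : 1 ≤ a) (hℓ : 0 < ℓ) : Θ ≤ Vf A₀ (Tt A₀ Θ a ℓ) a * ℓ := by
  refine Nat.sInf_mem (s := {n : ℕ | Θ ≤ Vf A₀ n a * ℓ}) ?_
  obtain ⟨n, hn⟩ := exists_nat_ge (Θ / (A₀ * ℓ))
  refine ⟨n, ?_⟩
  rw [div_le_iff₀ (by positivity)] at hn
  show Θ ≤ Vf A₀ n a * ℓ
  have h2 : A₀ * (n : ℝ) ≤ Vf A₀ n a := by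
    unfold Vf
    exact le_mul_of_one_le_right (by positivity) (one_le_pow₀ h1)
  calc Θ ≤ n * (A₀ * ℓ) := hn
    _ = A₀ * (n : ℝ) * ℓ := by ring
    _ ≤ Vf A₀ n a * ℓ := by gcongr

/-- the first time of the stage -/
private lemma tst {F : Pm} {K : ℕ} {a₀ ℓst : ℝ} (hF : F.Ok) (S : F.St K a₀ ℓst) :
    Tt F.A₀ (F.Th K) a₀ ℓst ≤ F.X * (2 ^ (2 * K) + F.C₁ * F.E K + F.X) + 1 := by
  refine Nat.sInf_le ?_
  show F.Th K ≤ Vf F.A₀ (F.X * (2 ^ (2 * K) + F.C₁ * F.E K + F.X) + 1) a₀ * ℓst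
  have hx1 : 1 < F.x₁ := hF.h1
  have ha0 : 0 < a₀ := by linarith [S.lo]
  have h1 : (2 : ℝ) ^ (2 ^ (2 * K) + F.C₁ * F.E K + F.X) ≤ a₀ ^ (F.X * (2 ^ (2 * K) + F.C₁ * F.E K + F.X)) := by
    rw [pow_mul a₀]
    refine pow_le_pow_left₀ (by norm_num) (hF.hx1.trans ?_) _
    exact pow_le_pow_left₀ (by linarith) S.lo _
  have h2 : F.A₀ * a₀ ^ (F.X * (2 ^ (2 * K) + F.C₁ * F.E K + F.X)) ≤
      Vf F.A₀ (F.X * (2 ^ (2 * K) + F.C₁ * F.E K + F.X) + 1) a₀ := by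
    unfold Vf
    rw [Nat.add_sub_cancel]
    have h3 : (1 : ℝ) ≤ ((F.X * (2 ^ (2 * K) + F.C₁ * F.E K + F.X) + 1 : ℕ) : ℝ) := by
      exact_mod_cast Nat.le_add_left 1 _
    have h4 : 0 < a₀ ^ (F.X * (2 ^ (2 * K) + F.C₁ * F.E K + F.X)) := by positivity
    have hA := hF.hA
    calc F.A₀ * a₀ ^ (F.X * (2 ^ (2 * K) + F.C₁ * F.E K + F.X))
        = F.A₀ * 1 * a₀ ^ (F.X * (2 ^ (2 * K) + F.C₁ * F.E K + F.X)) := by ring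
      _ ≤ F.A₀ * ((F.X * (2 ^ (2 * K) + F.C₁ * F.E K + F.X) + 1 : ℕ) : ℝ) *
          a₀ ^ (F.X * (2 ^ (2 * K) + F.C₁ * F.E K + F.X)) := by gcongr
  have h5 : (2 : ℝ) ^ (2 ^ (2 * K) + F.C₁ * F.E K + F.X) = 2 ^ (2 ^ (2 * K)) * F.Th K * 2 ^ F.X := by
    unfold Pm.Th
    rw [pow_add, pow_add]
  have hA := hF.hA
  have hl := S.pos
  have hTh : 0 < F.Th K := by
    unfold Pm.Th
    positivity
  calc F.Th K = F.Th K * 1 * 1 := by ring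
    _ ≤ F.Th K * (ℓst * 2 ^ (2 ^ (2 * K))) * (F.A₀ * 2 ^ F.X) := by
        have e1 := S.lg
        have e2 := hF.hA2
        gcongr
    _ = F.A₀ * (2 ^ (2 ^ (2 * K)) * F.Th K * 2 ^ F.X) * ℓst := by ring
    _ = F.A₀ * 2 ^ (2 ^ (2 * K) + F.C₁ * F.E K + F.X) * ℓst := by rw [h5]
    _ ≤ F.A₀ * a₀ ^ (F.X * (2 ^ (2 * K) + F.C₁ * F.E K + F.X)) * ℓst := by gcongr
    _ ≤ Vf F.A₀ (F.X * (2 ^ (2 * K) + F.C₁ * F.E K + F.X) + 1) a₀ * ℓst := by gcongr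

/-- numbers -/
private lemma nums {F : Pm} {K : ℕ} (hK : F.Big K) :
    2 ^ (2 * K) + (F.X * (2 ^ (2 * K) + F.C₁ * F.E K + F.X) + 1) ≤ 2 ^ (3 * K) ∧ 3 * K + 1 ≤ K ^ 4 := by
  have hZ : F.Z ^ 4 ≤ K := hK
  have c0 : 40 * (2 * (F.d + 1)) + 10 ≤ F.C₀ := by
    unfold Pm.C₀ Pm.t
    omega
  have c1 : F.C₁ = F.C₀ + 20 := rfl
  have c2 : F.C₂ = F.C₁ + F.C₀ + 30 := rfl
  have hz1 : 1000 * (F.X + 1) * (F.C₂ + 10) ≤ F.Z := by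
    unfold Pm.Z
    refine Nat.mul_le_mul_left _ ?_
    omega
  have z1 : F.C₁ ≤ F.Z := by
    refine le_trans ?_ hz1
    nlinarith [Nat.zero_le F.X, Nat.zero_le F.C₂]
  have z2 : F.d + 4 ≤ F.Z := by
    refine le_trans ?_ hz1
    nlinarith [Nat.zero_le F.X, Nat.zero_le F.C₂]
  have z3 : F.X + 1 ≤ F.Z := by
    refine le_trans ?_ hz1
    nlinarith [Nat.zero_le F.X, Nat.zero_le F.C₂]
  have z4 : 1000 ≤ F.Z := by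
    refine le_trans ?_ hz1
    nlinarith [Nat.zero_le F.X, Nat.zero_le F.C₂]
  have hZK : F.Z ≤ K := by
    refine le_trans ?_ hZ
    calc F.Z = F.Z ^ 1 := (pow_one _).symm
      _ ≤ F.Z ^ 4 := Nat.pow_le_pow_right (by omega) (by omega)
  have hK1 : 1000 ≤ K := z4.trans hZK
  have hX : F.X + 1 ≤ K := z3.trans hZK
  have hE : F.E K = (F.d + 4) * K := rfl
  have hZ3 : F.Z * F.Z ≤ K := by
    refine le_trans ?_ hZ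
    calc F.Z * F.Z = F.Z ^ 2 := (pow_two _).symm
      _ ≤ F.Z ^ 4 := Nat.pow_le_pow_right (by omega) (by omega)
  have hCE : F.C₁ * F.E K ≤ K * K := by
    rw [hE]
    calc F.C₁ * ((F.d + 4) * K) = F.C₁ * (F.d + 4) * K := by ring
      _ ≤ F.Z * F.Z * K := by gcongr
      _ ≤ K * K := by gcongr
  have hp : K < 2 ^ K := Nat.lt_two_pow_self
  have h2K : (2 : ℕ) ^ (2 * K) = 2 ^ K * 2 ^ K := by rw [two_mul, pow_add]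
  have h3K : (2 : ℕ) ^ (3 * K) = 2 ^ (2 * K) * 2 ^ K := by
    rw [← pow_add]
    congr 1
    omega
  -- `2 ^ K ≥ 3 K + 3`
  have hbig : 3 * K + 3 ≤ 2 ^ K := by
    have : ∀ k : ℕ, 5 ≤ k → 3 * k + 3 ≤ 2 ^ k := by
      intro k hk
      induction k, hk using Nat.le_induction with
      | base => norm_num
      | succ k hk ih =>
        rw [pow_succ]
        omega
    exact this K (by omega)
  have hsq : K * K ≤ 2 ^ (2 * K) := by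
    rw [h2K]
    exact Nat.mul_le_mul hp.le hp.le
  constructor
  · have e1 : F.C₁ * F.E K + F.X ≤ 2 * 2 ^ (2 * K) := by
      have : F.X ≤ K * K := by nlinarith
      omega
    have e2 : F.X * (2 ^ (2 * K) + F.C₁ * F.E K + F.X) ≤ F.X * (3 * 2 ^ (2 * K)) := by
      refine Nat.mul_le_mul_left _ ?_
      omega
    have e3 : 1 ≤ 2 ^ (2 * K) := Nat.one_le_two_pow
    have e4 : F.X * (3 * 2 ^ (2 * K)) ≤ 3 * K * 2 ^ (2 * K) := by nlinarith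
    calc 2 ^ (2 * K) + (F.X * (2 ^ (2 * K) + F.C₁ * F.E K + F.X) + 1)
        ≤ 2 ^ (2 * K) + (3 * K * 2 ^ (2 * K) + 2 ^ (2 * K)) := by omega
      _ = (3 * K + 2) * 2 ^ (2 * K) := by ring
      _ ≤ 2 ^ K * 2 ^ (2 * K) := Nat.mul_le_mul_right _ (by omega)
      _ = 2 ^ (3 * K) := by rw [h3K]; ring
  · calc 3 * K + 1 ≤ K * K := by nlinarith
      _ ≤ K ^ 4 := by
        calc K * K = K ^ 2 := (pow_two _).symm
          _ ≤ K ^ 4 := Nat.pow_le_pow_right (by omega) (by omega)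

theorem nu_T {F : Pm} {K : ℕ} {a₀ ℓst ℓ x : ℝ} (hF : F.Ok) (hK : F.Big K) (S : F.St K a₀ ℓst) (hℓ : 0 < ℓ) (hℓst : ℓ ≤ ℓst)
    (hT : F.T K a₀ ℓst ℓ ≤ 2 ^ (2 * K)) (hx : x ∈ Icc a₀ (a₀ + ℓst)) :
    nuP F.A₀ 1 1 x ℓ ≤ Tt F.A₀ (F.Th K) a₀ ℓ ∧ Tt F.A₀ (F.Th K) a₀ ℓ ≤ nuP F.A₀ 1 1 x ℓ + F.X * (F.C₁ * F.E K + 1) := by
  have hx1 : 1 < F.x₁ := hF.h1
  have hA := hF.hA
  have ha : F.x₁ ≤ a₀ := S.lo
  have ha1 : 1 ≤ a₀ := by linarith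
  have ha0 : 0 < a₀ := by linarith
  have hx0 : 0 < x := by linarith [hx.1]
  have hTh : (1 : ℝ) ≤ F.Th K := by
    unfold Pm.Th
    exact one_le_pow₀ (by norm_num)
  have hsp := tspec (Θ := F.Th K) hA ha1 hℓ
  set N := Tt F.A₀ (F.Th K) a₀ ℓ with hN
  have hle : nuP F.A₀ 1 1 x ℓ ≤ N := by
    refine Nat.sInf_le ?_
    show 1 ≤ fp F.A₀ 1 (1 * N) x * ℓ
    rw [one_mul, ← vfp hx0]
    calc (1 : ℝ) ≤ F.Th K := hTh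
      _ ≤ Vf F.A₀ N a₀ * ℓ := hsp
      _ ≤ Vf F.A₀ N x * ℓ := mul_le_mul_of_nonneg_right (vmono hA ha0 hx.1) hℓ.le
  refine ⟨hle, ?_⟩
  obtain ⟨hn1, hn2⟩ := nums hK
  -- the time is at most `2 ^ (3 K)`
  have hNb : N ≤ 2 ^ (3 * K) := by
    have h1 := tst hF S
    unfold Pm.T at hT
    rw [← hN] at hT
    omega
  have hnear : ((nuP F.A₀ 1 1 x ℓ : ℕ) : ℝ) * ℓst ≤ 1 / 2 := by
    have h1 : ((nuP F.A₀ 1 1 x ℓ : ℕ) : ℝ) ≤ 2 ^ (3 * K) := by exact_mod_cast hle.trans hNb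
    have h2 : (2 : ℝ) ^ (3 * K + 1) ≤ 2 ^ (K ^ 4) := pow_le_pow_right₀ (by norm_num) hn2
    have h3 := S.sm
    have h4 := S.pos
    have h5 : (2 : ℝ) ^ (3 * K + 1) * ℓst ≤ 1 := by
      calc (2 : ℝ) ^ (3 * K + 1) * ℓst ≤ 2 ^ (K ^ 4) * ℓst := by gcongr
        _ = ℓst * 2 ^ (K ^ 4) := mul_comm _ _
        _ ≤ 1 := h3
    rw [pow_succ] at h5
    have h6 : ((nuP F.A₀ 1 1 x ℓ : ℕ) : ℝ) * ℓst ≤ 2 ^ (3 * K) * ℓst := by gcongr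
    nlinarith
  have hspec : 1 ≤ Vf F.A₀ (nuP F.A₀ 1 1 x ℓ) x * ℓ := by
    have h1 : (nuP F.A₀ 1 1 x ℓ) ∈ {n : ℕ | 1 ≤ fp F.A₀ 1 (1 * n) x * ℓ} := by
      refine Nat.sInf_mem ⟨N, ?_⟩
      show 1 ≤ fp F.A₀ 1 (1 * N) x * ℓ
      rw [one_mul, ← vfp hx0]
      calc (1 : ℝ) ≤ F.Th K := hTh
        _ ≤ Vf F.A₀ N a₀ * ℓ := hsp
        _ ≤ Vf F.A₀ N x * ℓ := mul_le_mul_of_nonneg_right (vmono hA ha0 hx.1) hℓ.le
    have h2 : 1 ≤ fp F.A₀ 1 (1 * nuP F.A₀ 1 1 x ℓ) x * ℓ := h1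
    rwa [one_mul, ← vfp hx0] at h2
  have h2a : Vf F.A₀ (nuP F.A₀ 1 1 x ℓ) x ≤ 2 * Vf F.A₀ (nuP F.A₀ 1 1 x ℓ) a₀ := vnear hA ha1 hx.1 hx.2 hnear
  have hstep := vstep hA ha0 (nuP F.A₀ 1 1 x ℓ) (F.X * (F.C₁ * F.E K + 1))
  have hpow : 2 * F.Th K ≤ a₀ ^ (F.X * (F.C₁ * F.E K + 1)) := by
    have h1 : (2 : ℝ) ^ (F.C₁ * F.E K + 1) ≤ a₀ ^ (F.X * (F.C₁ * F.E K + 1)) := by
      rw [pow_mul a₀]
      refine pow_le_pow_left₀ (by norm_num) (hF.hx1.trans ?_) _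
      exact pow_le_pow_left₀ (by linarith) ha _
    calc 2 * F.Th K = 2 ^ (F.C₁ * F.E K + 1) := by
          unfold Pm.Th
          rw [pow_succ]
          ring
      _ ≤ _ := h1
  refine Nat.sInf_le ?_
  show F.Th K ≤ Vf F.A₀ (nuP F.A₀ 1 1 x ℓ + F.X * (F.C₁ * F.E K + 1)) a₀ * ℓ
  have hvn : 0 ≤ Vf F.A₀ (nuP F.A₀ 1 1 x ℓ) a₀ := vnn hA ha0
  have hhalf : 1 ≤ 2 * (Vf F.A₀ (nuP F.A₀ 1 1 x ℓ) a₀ * ℓ) := by
    calc (1 : ℝ) ≤ Vf F.A₀ (nuP F.A₀ 1 1 x ℓ) x * ℓ := hspec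
      _ ≤ 2 * Vf F.A₀ (nuP F.A₀ 1 1 x ℓ) a₀ * ℓ := by gcongr
      _ = _ := by ring
  calc F.Th K = F.Th K * 1 := (mul_one _).symm
    _ ≤ F.Th K * (2 * (Vf F.A₀ (nuP F.A₀ 1 1 x ℓ) a₀ * ℓ)) := by
        gcongr
    _ = Vf F.A₀ (nuP F.A₀ 1 1 x ℓ) a₀ * (2 * F.Th K) * ℓ := by ring
    _ ≤ Vf F.A₀ (nuP F.A₀ 1 1 x ℓ) a₀ * a₀ ^ (F.X * (F.C₁ * F.E K + 1)) * ℓ := by gcongr
    _ ≤ Vf F.A₀ (nuP F.A₀ 1 1 x ℓ + F.X * (F.C₁ * F.E K + 1)) a₀ * ℓ := by gcongr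

end Pool.Agent.Helper11.LD6
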